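import Mathlib
import Pool.Agent.H86.EndoDist.Final
import Pool.Agent.H78.ED.Tree
import Pool.Agent.H58.ED.Len

set_option autoImplicit false

/-!
Rings all of whose right modules are distributive over their endomorphism rings: the complete
classification, the symmetry between right and left modules, and the sharp bound for the number of
submodules over the endomorphism ring.
-/

namespace Pool.Agent.Results.MP_14cded_al.AdmissibleRings

universe u v

/-- Every right `A`-module `M` in the universe `v` (that is, every left module over the opposite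
ring `Aᵐᵒᵖ`) has a distributive lattice of `End(M_A)`-submodules. -/
def Admissible (A : Type u) [Ring A] : Prop :=
  ∀ (M : Type v) [AddCommGroup M] [Module Aᵐᵒᵖ M] (U V W : Submodule (Module.End Aᵐᵒᵖ M) M),
    U ⊓ (V ⊔ W) = (U ⊓ V) ⊔ (U ⊓ W)

/-- The same for left modules: every left `A`-module `M` in the universe `v` has a distributive
lattice of submodules over its endomorphism ring. -/
def LeftAdmissible (A : Type u) [Ring A] : Prop :=
  ∀ (M : Type v) [AddCommGroup M] [Module A M] (U V W : Submodule (Module.End A M) M),
    U ⊓ (V ⊔ W) = (U ⊓ V) ⊔ (U ⊓ W)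

/-- `R` is an Artinian chain ring: local, left Artinian, and any two elements are comparable for
left divisibility and for right divisibility (that is, the left ideals and the right ideals of `R`
are totally ordered by inclusion). -/
structure ArtinianChainRing (R : Type u) [Ring R] : Prop where
  isLocal : IsLocalRing R
  isArtinian : IsArtinianRing R
  left_chain : ∀ x y : R, ∃ c : R, x = c * y ∨ y = c * x
  right_chain : ∀ x y : R, ∃ c : R, x = y * c ∨ y = x * c

/-- `A` is a finite direct product of Artinian chain rings. -/
def FiniteProduct (A : Type u) [Ring A] : Prop :=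
  ∃ (n : ℕ) (R : Fin n → Type u) (_ : ∀ i, Ring (R i)),
    Nonempty (A ≃+* ∀ i, R i) ∧ ∀ i, ArtinianChainRing (R i)

/-- A ring `A` is admissible if and only if it is a finite direct product of Artinian chain rings
(for the right modules in the universe of `A`, hence for the right modules in any universe). The
same holds for left modules. In that case `A` has finite length `l`, every right `A`-module (in any
universe) has at most `2 ^ l` submodules over its endomorphism ring, and some right `A`-module has
exactly `2 ^ l` of them. -/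
theorem result (A : Type u) [Ring A] :
    ((Admissible.{u, u} A ↔ FiniteProduct A) ∧ (FiniteProduct A → Admissible.{u, v} A)) ∧
    ((LeftAdmissible.{u, u} A ↔ FiniteProduct A) ∧ (FiniteProduct A → LeftAdmissible.{u, v} A)) ∧
    (FiniteProduct A → ∃ l : ℕ, Module.length A A = l ∧
      (∀ (M : Type v) [AddCommGroup M] [Module Aᵐᵒᵖ M],
        Finite (Submodule (Module.End Aᵐᵒᵖ M) M) ∧
        Nat.card (Submodule (Module.End Aᵐᵒᵖ M) M) ≤ 2 ^ l) ∧
      ∃ (M : Type u) (_ : AddCommGroup M) (_ : Module Aᵐᵒᵖ M),
        Nat.card (Submodule (Module.End Aᵐᵒᵖ M) M) = 2 ^ l) := by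
  have conv : ∀ {A : Type u} [Ring A], FiniteProduct A → Pool.Agent.H86.EndoDist.IsProdChain A := by
    rintro A _ ⟨n, R, hR, e, hc⟩
    exact ⟨n, R, hR, e, fun i =>
      ⟨(hc i).isLocal, (hc i).isArtinian, (hc i).left_chain, (hc i).right_chain⟩⟩
  have conv' : ∀ {A : Type u} [Ring A], Pool.Agent.H86.EndoDist.IsProdChain A → FiniteProduct A := by
    rintro A _ ⟨n, R, hR, e, hc⟩
    exact ⟨n, R, hR, e, fun i =>
      ⟨(hc i).isLocal, (hc i).isArtinian, (hc i).left_chain, (hc i).right_chain⟩⟩
  refine ⟨⟨⟨fun h => ?_, fun h M _ _ => ?_⟩, fun h M _ _ => ?_⟩,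
    ⟨⟨fun h => ?_, fun h M _ _ => ?_⟩, fun h M _ _ => ?_⟩, fun h => ?_⟩
  · have h' : Pool.Agent.H86.EndoDist.RightAdmissible.{u, u} A := fun M _ _ => h M
    exact conv' (Pool.Agent.H86.EndoDist.IsProdChain.of_op
      (Pool.Agent.H78.ED.product_of_adm h'.adm))
  · exact Pool.Agent.H86.EndoDist.rightAdmissible_of_prod (conv h) M
  · exact Pool.Agent.H86.EndoDist.rightAdmissible_of_prod (conv h) M
  · exact conv' (Pool.Agent.H78.ED.product_of_adm fun M _ _ => h M)
  · exact Pool.Agent.H58.ED.endo_left (conv h) M
  · exact Pool.Agent.H58.ED.endo_left (conv h) M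
  · exact Pool.Agent.H58.ED.count (conv h)

end Pool.Agent.Results.MP_14cded_al.AdmissibleRings
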